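import Pool.Agent.Lib.MP_605763_gt.Final

namespace Pool.Agent.Results.MP_605763_gt.LeastXrays

open Pool.Agent.Lib.MP_605763_gt

/-- Determination of `N(n,k)` for all `n ≥ 3` and `1 < k ≤ n - 1`: it is `3` if `n ≥ 3k - 1`,
it is `4` if `2k ≤ n ≤ 3k - 2`, and it is the least integer not below
`n(n+1) / ((n-k)(n-k+1))` if `n < 2k`. The first part compares X-rays pointwise, the second part
compares them almost everywhere. -/
theorem result (n k : ℕ) (hn : 3 ≤ n) (hk : 1 < k) (hkn : k ≤ n - 1) :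
    leastXrays (EuclideanSpace ℝ (Fin n)) k = ((if 3 * k ≤ n + 1 then 3 else if 2 * k ≤ n then 4 else
        ⌈(n : ℚ) * (n + 1) / (((n : ℚ) - k) * ((n : ℚ) - k + 1))⌉₊ : ℕ) : ℕ∞) ∧
    leastXraysAE (EuclideanSpace ℝ (Fin n)) k = ((if 3 * k ≤ n + 1 then 3 else if 2 * k ≤ n then 4 else
        ⌈(n : ℚ) * (n + 1) / (((n : ℚ) - k) * ((n : ℚ) - k + 1))⌉₊ : ℕ) : ℕ∞) :=
  main n k hn hk hkn

end Pool.Agent.Results.MP_605763_gt.LeastXrays
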